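import Pool.Agent.MWFE.StmtsB

/-!
# Squad MWFE, row HWZ: the heavy letters of the word
-/

set_option autoImplicit false

namespace Pool.Agent.MWFE.H26

open Pool.Agent.Helper14_MV Pool.Agent.Helper2_MV Pool.Agent.MVD
open Pool.Agent.MWE (Can XX fxy dxy dx dy up cp L4 pr Xs xl isx Fs nd nr)
open Pool.Agent.MWGR (cb)

theorem bw_split {R : List ℕ} {r : ℕ} (B : ℕ → List ℕ) (h : r ∈ R) :
    ∃ a b : List ℕ, Bw R B = a ++ (B r ++ b) := by
  obtain ⟨R1, R2, hR⟩ := List.append_of_mem h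
  refine ⟨Bw R1 B, (3 * r + 2) :: Bw R2 B, ?_⟩
  rw [hR]
  unfold Bw
  rw [List.flatMap_append, List.flatMap_cons]
  simp

/-- **HWZ** -/
theorem hwz : HwzStmt := by
  intro m R c B e hB a ha hz
  rcases hB.hv a ha hz with h | h | ⟨r, hr, h⟩
  · exact Or.inl h
  · refine Or.inr ⟨Bw R B, e, [], by simp, fun v hv => ?_, h⟩
    exact hB.mu v (List.mem_append_right _ hv) (hB.se v hv)
  · obtain ⟨x, y, hxy⟩ := bw_split B hr
    refine Or.inr ⟨x, B r, y ++ e, by rw [hxy]; simp, fun v hv => ?_, h⟩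
    refine hB.mu v ?_ (hB.sf r v hv)
    rw [hxy]
    simp [hv]

end Pool.Agent.MWFE.H26
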